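import Pool.Agent.R913.Tor.Drb

/-!
# MP_470b79_ag: the de Rham-Betti conjecture for a motive and the subobjects of its adjoint object

Let `M` be an André motive over the field `K` of the algebraic numbers, and choose bases of its de Rham realisation
(over `K`) and of its Betti realisation (over `k = ℚ`).  The torsor `S = Ω^And_M` is a `K`-subtorsor of `GL_N` under
the group `G_And(M)`, which is defined over `ℚ` (`GroupOver k S`), and the comparison isomorphism is a point `c` of
`S`.  The smallest `K`-subtorsor through `c` under a group over `ℚ` is `Ω^dRB_M`, and its group is `G_dRB(M)`.  Let
`g = LM S` be the (complexified) Lie algebra of `G_And(M)`; this group is reductive, so that `g` is the sum of its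
centre and of its derived algebra `[g, g]` (`CentreDer`).

A de Rham-Betti subobject of `End(M)` is a subspace `U` which is rational over `k` on the Betti side and whose
transport `c⁻¹ U c` is rational over `K` on the de Rham side; `g` is a subobject of `End(M)`, the adjoint object.

**Theorem.**  The following conditions are equivalent:

1. every de Rham-Betti subobject of the adjoint object `g` is an ideal of `g`;
2. every de Rham-Betti subobject of `End(M)` is stable under `[g, g]`;
3. the Lie algebra of every torsor over `K` through `c` under a group over `k`, in particular of `Ω^dRB_M`, contains
   `[g, g]`.

If moreover `S` is irreducible (the motivic Galois group is connected), `g / [g, g]` has dimension at most one and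
`det c` is not in `K`, then condition 1 is equivalent to

4. `S` is contained in every torsor over `K` through `c` under a group over `k`; that is, `Ω^dRB_M = Ω^And_M`.

For the cohomology of a variety of positive dimension, in positive degree, `det c` is a non-zero algebraic number
times a power of `2 π i`, and the last hypothesis is the transcendence of `π`; the centre is one-dimensional for
instance if the group is the group of the similitudes of a form, or for every abelian variety without factors of
type IV.  It is known that `Ω^dRB_M = Ω^And_M` if and only if the realisation is full on the whole tensor category
generated by `M` and `G_dRB(M)` is reductive.  Here the subobjects of one object of degree two decide, and the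
reductivity of `G_dRB(M)` is part of the conclusion.

The theorem is proved for all pairs of subfields `k ⊆ K` of `ℂ` with `K` algebraically closed; for `k = K` it concerns
the smallest torsor over `K`, as in the period conjecture.
-/

set_option autoImplicit false

namespace Pool.Agent.Results.MP_470b79_ag.AdjointObject

open Matrix Pool.Agent.R913.Tor Pool.Agent.TH127.PT

/-- **The de Rham-Betti conjecture for a motive is a statement on the subobjects of the adjoint object.** -/
theorem result (k K : Subfield ℂ) [IsAlgClosed K] (hk : k ≤ K) {N : Type} [Fintype N] [DecidableEq N]
    (S : Set (Matrix N N ℂ)) (hS : IsSubtorsor K S) (hkS : GroupOver k S) (c : Matrix N N ℂ) (hc : c ∈ S)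
    (hz : CentreDer (LM S)) :
    List.TFAE [AdjIdeals k K (LM S) c, EndStable k K (LM S) c, AllLarge k K (LM S) c] ∧
    (Irred S → (∃ W, LM S ≤ der (LM S) ⊔ Submodule.span ℂ {W}) → det c ∉ K →
      (AdjIdeals k K (LM S) c ↔ Smallest k K S c)) :=
  ⟨adj_tfae hk hS hkS hc hz, fun hirr ⟨_, hW⟩ hdet =>
    adj_smallest hk hS hkS hc hirr hz (ab_of_det hS hc hW hdet)⟩

end Pool.Agent.Results.MP_470b79_ag.AdjointObject
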