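import Pool.Agent.R917.Bridge

set_option autoImplicit false

/-!
# Motives of abelian type whose de Rham-Betti group is commutative are of CM type

Let `A` be any abelian variety over the field `ℚ̄` of algebraic numbers. Let `U` be a subspace of
`H^1(A, ℚ) ^ {⊗ n}` which is a Hodge substructure and a subobject of the de Rham-Betti object, for
example the realization of a submotive of `h^1(A) ^ {⊗ n}`, and let `M = U(k)` be its Tate twist. As
the polarization gives an isomorphism between `h^1(A)` and the dual of `h^1(A)(1)`, all objects of the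
tensor category generated by `h^1(A)` are sums of such `M`.

**Theorem.** Suppose that the comparison isomorphism of `M` lies in a torsor, defined over `ℚ̄`, of a
commutative algebraic group `G ⊆ GL(M_B)` defined over `ℚ`. Then the Mumford-Tate group of `M` is
commutative.

So for the motives `M` generated by `h^1(A)`, if the group `G_dRB(M)` is commutative, then the group
`G_And(M)`, which is equal to the Mumford-Tate group of `M`, is commutative: motives of abelian type
which look like motives of CM type as far as their periods are concerned are of CM type. In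
particular this holds if all periods of `M` are algebraic numbers, or if `M` has a basis in which the
period matrix is diagonal up to algebraic factors and the eigenspaces are conjugate (for example if
`M` has the de Rham-Betti realization of a motive of CM type). For `M = h^1(A)` this follows from the
theorem that endomorphisms of the de Rham-Betti object are endomorphisms of `A`. Nothing is assumed
about the periods; `AbVar` is the description of an abelian variety over `ℚ̄` by theta functions.

## Proof

Let `𝔤` be the Lie algebra of the endomorphisms of `H_1(A, ℚ)` which annihilate all classes which are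
at the same time Hodge classes and de Rham-Betti classes, and which preserve `U`. Let `𝔩` be the
subalgebra of the elements which act on `U` by elements of the Lie algebra of `G`, up to scalars. It
contains the rational components of the logarithmic derivatives of the period matrix of `A`, so by
the theorem of Schneider and Lang it acts semisimply on `H_1(A, ℚ)` and has the same commutant as
`𝔤`. So `𝔩` is the sum of its centre, which commutes with `𝔤`, and of its derived algebra, which
annihilates `U` since `G` is commutative. Let `𝔫` be the annihilator of `U` in `𝔤` and `𝔷` the centre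
of `𝔤`. Then `𝔫 + 𝔷` is an ideal of `𝔤` which contains `𝔩`, and so it acts semisimply and has the
same commutant as `𝔤`. The trace form of `H_1(A, ℚ)` is nondegenerate on it, and its orthogonal
complement in `𝔤` commutes with it, and so with `𝔤`. So `𝔤 = 𝔫 + 𝔷`, and `𝔤` acts on `U` by commuting
endomorphisms. The rational components of the complex structure are in `𝔤`, and therefore the Hodge
structure of `U` lies in a commutative algebraic group over `ℚ`.
-/

open Module Matrix Pool.Agent.Y102

noncomputable section

namespace Pool.Agent.Results.MP_470b79_ag.CommutativeTorsors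

variable {g : ℕ} (A : AbVar g)

/-- The elements of `H^1(A, ℚ) ^ {⊗ n}`: the multilinear forms in `n` variables in the rational
homology. -/
abbrev Form (n : ℕ) : Type := MultilinearMap ℚ (fun _ : Fin n => A.H1) ℚ

/-- The values of the real extension of a form on vectors in `H_1(A, ℝ) = ℂ ^ g`. -/
def realExt {n : ℕ} (φ : Form A n) (v : Fin n → Fin g → ℂ) : ℝ :=
  ∑ J : Fin n → Fin (2 * g), ((φ (fun p => Pi.single (J p) 1) : ℚ) : ℝ) *
    ∏ p, A.lam.repr (v p) (J p)

/-- The span of the forms `u i` is preserved by the action of the complex number `z` (by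
multiplication on `H_1(A, ℝ) = ℂ ^ g`), and `M` is the matrix of this action. -/
def IsHodgeMatrix {n N : ℕ} (u : Fin N → Form A n) (z : ℂ) (M : Matrix (Fin N) (Fin N) ℝ) : Prop :=
  ∀ i (v : Fin n → Fin g → ℂ), realExt A (u i) (fun l => z • v l) = ∑ j, M j i * realExt A (u j) v

/-- The span `U` of the forms `u i` is a Hodge substructure of `H^1(A) ^ {⊗ n}`. -/
def IsHodgeSub {n N : ℕ} (u : Fin N → Form A n) : Prop :=
  ∀ z : ℂ, z ≠ 0 → ∃ M, IsHodgeMatrix A u z M

/-- `P` is the matrix of the comparison isomorphism of the subobject `U` with the basis `u`: the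
forms `w_i = ∑ j, P j i * u j` with complex values are linear combinations with algebraic
coefficients of the tensor products of the elements of the basis of `H^1_dR(A / ℚ̄)`. -/
def IsPeriodMatrix {n N : ℕ} (u : Fin N → Form A n) (P : Matrix (Fin N) (Fin N) ℂ) : Prop :=
  ∃ a : Fin N → (Fin n → Fin g ⊕ Fin g) → QBar, ∀ i (v : Fin n → A.H1),
    ∑ j, P j i * ((u j v : ℚ) : ℂ) = ∑ J, algebraMap QBar ℂ (a i J) * ∏ l, A.dR (J l) (v l)

/-- A subgroup of `GL_R(ℂ)` defined by polynomials with rational coefficients. -/
def IsAlgebraicSubgroup {R : Type} [Fintype R] [DecidableEq R] (G : Subgroup (GL R ℂ)) : Prop :=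
  ∃ I : Set (MvPolynomial (R × R) ℚ), ∀ x : GL R ℂ, x ∈ G ↔
    ∀ p ∈ I, MvPolynomial.aeval (fun b : R × R => (x : Matrix R R ℂ) b.1 b.2) p = 0

/-- The comparison isomorphism `c = (2 π i) ^ (-k) P` of `M = U(k)` is an element of a torsor
`G · T⁻¹` of `G`, defined over the algebraic numbers. -/
def ContainsPeriods {n N : ℕ} (u : Fin N → Form A n) (k : ℤ) (G : Subgroup (GL (Fin N) ℂ)) :
    Prop :=
  ∃ P T : Matrix (Fin N) (Fin N) ℂ, IsPeriodMatrix A u P ∧ (∀ i j, IsAlgebraic ℚ (T i j)) ∧
    ∃ x ∈ G, (x : Matrix (Fin N) (Fin N) ℂ) = ((2 * Real.pi * Complex.I : ℂ) ^ (-k) • P) * T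

/-- The Mumford-Tate group of `M = U(k)`: the smallest algebraic group over `ℚ` which contains the
image of the Deligne torus; the complex number `z` acts on `ℚ(k)` by `(z z̄) ^ (-k)`. -/
def mumfordTate {n N : ℕ} (u : Fin N → Form A n) (k : ℤ) : Subgroup (GL (Fin N) ℂ) :=
  sInf {G | IsAlgebraicSubgroup G ∧ ∀ (z : ℂ) (M : Matrix (Fin N) (Fin N) ℝ), z ≠ 0 →
    IsHodgeMatrix A u z M → ∃ x ∈ G, (x : Matrix (Fin N) (Fin N) ℂ) =
      ((‖z‖ ^ 2 : ℝ) : ℂ) ^ (-k) • M.map (algebraMap ℝ ℂ)}

/-- **Theorem.** If the comparison isomorphism of a motive `M = U(k)` generated by an abelian variety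
over `ℚ̄` lies in a torsor over `ℚ̄` of a commutative algebraic group over `ℚ`, then the Mumford-Tate
group of `M` is commutative. -/
theorem result (g n N : ℕ) (A : AbVar g) (u : Fin N → Form A n) (k : ℤ)
    (hu : LinearIndependent ℚ u) (hU : IsHodgeSub A u) (G : Subgroup (GL (Fin N) ℂ))
    (hG : IsAlgebraicSubgroup G) (hP : ContainsPeriods A u k G)
    (hc : ∀ x ∈ G, ∀ y ∈ G, x * y = y * x) :
    ∀ x ∈ mumfordTate A u k, ∀ y ∈ mumfordTate A u k, x * y = y * x := by
  obtain ⟨P, T, hPer, hT, x, hx, hxT⟩ := hP
  have hs : (2 * Real.pi * Complex.I : ℂ) ^ (-k) ≠ 0 := zpow_ne_zero _ AbVar.tau_ne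
  have hmain := Pool.Agent.R917.bridge hG hc hPer hT hs hx hxT
  have hconv : ∀ (z : ℂ) (M : Matrix (Fin N) (Fin N) ℝ),
      Pool.Agent.R917.IsHM A u z M ↔ IsHodgeMatrix A u z M := by
    intro z M
    unfold Pool.Agent.R917.IsHM IsHodgeMatrix
    simp only [Pool.Agent.R917.Phi_eq]
    rfl
  obtain ⟨G', hG', hc', hM⟩ := Pool.Agent.R917.exists_mt hu
    (fun z hz => by
      obtain ⟨M, hM⟩ := hU z hz
      exact ⟨M, (hconv z M).2 hM⟩) hmain
  have hle : mumfordTate A u k ≤ G' := by
    refine sInf_le ⟨hG', fun z M hz hzM => hM z M hz ((hconv z M).2 hzM) _ ?_⟩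
    refine zpow_ne_zero _ ?_
    have : (‖z‖ ^ 2 : ℝ) ≠ 0 := pow_ne_zero _ (norm_ne_zero_iff.2 hz)
    exact_mod_cast this
  exact fun x hx y hy => hc' x (hle hx) y (hle hy)

end Pool.Agent.Results.MP_470b79_ag.CommutativeTorsors
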