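import Pool.Agent.R351.GD.Hy.Sub

/-!
# `Ω^dRB` of `M_0 ⊕ ℚ(-1) ⊕ M_t` for hyperelliptic curves, over all number fields of growing degree at the same time

Let `f_1, …, f_N ∈ ℚ[X]` be monic of degree `n = 2 g` with `n` distinct real roots which are not zero. For natural numbers
`t_j` let `M_t = h^1(C_1) ⊕ … ⊕ h^1(C_N)` be the motive of the curves `C_j : y² = f_j(x) (x - 1 / t_j)` of genus `g`. Let
`C₀` be any invertible complex `r × r` matrix, the period matrix of a de Rham-Betti object `M_0` of rank `r` (of any motive,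
over any subfield of `ℂ`).

There is a number `C`, which depends only on the `f_j` and on `r`, such that for all `C₀`, `D` and `T`, for all but
`C T^(N - 1 / (D + 2)^C)` of the `T^N` tuples `t` of natural numbers `t_j ≤ T` the following holds for ALL number fields
`K` in `ℂ` of degree at most `D`:

1. Every `K`-subtorsor `T'` of `Iso` for `M_0 ⊕ ℚ(-1) ⊕ M_t`, which contains the period matrix and respects the
decomposition and the polarisations of `M_t`, is the fibre product `T_0 ×_(G_m) (torsor of the polarisations of M_t)`, where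
`T_0`, the projection of `T'`, is a `K`-subtorsor of `Iso` for `M_0 ⊕ ℚ(-1)`.

2. The smallest `K`-subtorsor containing the period matrix is such a fibre product, with `T_0` the smallest `K`-subtorsor
containing the period matrix of `M_0 ⊕ ℚ(-1)`.

So the exceptional set does not depend on the field `K`, there are infinitely many fields `K` for each `D`, and the
degree `D` may grow with `T`, like `(log T)^c` for some `c > 0`: then still almost all `t` have the properties 1 and 2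
for all `K` of degree at most `D`. For a fixed field `K` (with an exceptional set depending on `K` and an exponent which
depends on the degree in an unspecified way) this is an earlier result (`RelativeSubtorsors`).

Proof. The reduction to relations of degree at most `D + 4 + d`, where `d` depends only on `n`, is the one of
`RelativeSubtorsors` (`Pool/Agent/Y123/SR`). The bound for the tuples with such relations over some number field of
bounded degree, with an exponent depending on the degree in an explicit way, is new: `Pool/Agent/R351/GD` and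
`Pool/Agent/R351/GD/Hy`. In place of Siegel's lemma and Hilbert's Nullstellensatz over a fixed field one has to control the
auxiliary functions for all the fields of degree at most `D` at the same time, with bounds which are polynomial in the
degree.
-/

set_option autoImplicit false

open Polynomial Matrix

namespace Pool.Agent.Results.MP_470b79_ag.GrowingFieldSubtorsors

/-- `T` is (the set of complex points of) a `K`-subtorsor of `GL_B = Iso (M_dR, M_B)`: it is closed under `x y⁻¹ z`, and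
it is defined in `GL_B` by polynomials with coefficients in `K`. -/
def IsSubtorsor (K : Subfield ℂ) {B : Type} [Fintype B] [DecidableEq B] (T : Set (Matrix B B ℂ)) : Prop :=
  (∀ x ∈ T, ∀ y ∈ T, ∀ z ∈ T, x * y⁻¹ * z ∈ T) ∧ ∃ I : Set (MvPolynomial (B × B) K), ∀ x : Matrix B B ℂ, x ∈ T ↔
    IsUnit x ∧ ∀ p ∈ I, MvPolynomial.eval (fun b => x b.1 b.2) (MvPolynomial.map (algebraMap K ℂ) p) = 0

/-- `Ω` is the smallest `K`-subtorsor which contains the period matrix `c` -/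
def IsOmega (K : Subfield ℂ) {B : Type} [Fintype B] [DecidableEq B] (c : Matrix B B ℂ) (Ω : Set (Matrix B B ℂ)) : Prop :=
  IsSubtorsor K Ω ∧ c ∈ Ω ∧ ∀ T : Set (Matrix B B ℂ), IsSubtorsor K T → c ∈ T → Ω ⊆ T

/-- the block matrix `x ⊕ μ`; for a period matrix `x` of `M_0` and `μ = 2πi` the period matrix of `M_0 ⊕ ℚ(-1)` -/
def withTate {r : ℕ} (x : Matrix (Fin r) (Fin r) ℂ) (μ : ℂ) : Matrix (Fin r ⊕ Unit) (Fin r ⊕ Unit) ℂ :=
  Matrix.fromBlocks x 0 0 (Matrix.of fun _ _ => μ)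

/-- the block matrix `x ⊕ μ ⊕ X_1 ⊕ … ⊕ X_N` -/
noncomputable def total {r n N : ℕ} (x : Matrix (Fin r) (Fin r) ℂ) (μ : ℂ) (X : Fin N → Matrix (Fin n) (Fin n) ℂ) :
    Matrix ((Fin r ⊕ Unit) ⊕ (Fin n × Fin N)) ((Fin r ⊕ Unit) ⊕ (Fin n × Fin N)) ℂ :=
  Matrix.fromBlocks (withTate x μ) 0 0 (Matrix.blockDiagonal X)

/-- the alternating form with entries `2 (-1)^r` at `(r, s)`, `|r - s| = 1` -/
def polB (n : ℕ) : Matrix (Fin n) (Fin n) ℚ :=
  Matrix.of fun r s => if (r : ℕ) = s + 1 ∨ (s : ℕ) = r + 1 then 2 * (-1) ^ (r : ℕ) else 0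

/-- `(X_1, …, X_N)` respects the polarisations, with multiplier `μ` -/
def Respects {n N : ℕ} (Q : Fin N → Matrix (Fin n) (Fin n) ℂ) (X : Fin N → Matrix (Fin n) (Fin n) ℂ) (μ : ℂ) : Prop :=
  ∀ j, X j * Q j * (X j)ᵀ = μ • (polB n).map (algebraMap ℚ ℂ)

/-- the matrices which respect the decomposition and the polarisations -/
def respecting {r n N : ℕ} (Q : Fin N → Matrix (Fin n) (Fin n) ℂ) :
    Set (Matrix ((Fin r ⊕ Unit) ⊕ (Fin n × Fin N)) ((Fin r ⊕ Unit) ⊕ (Fin n × Fin N)) ℂ) :=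
  {y | ∃ (x : Matrix (Fin r) (Fin r) ℂ) (μ : ℂ) (X : Fin N → Matrix (Fin n) (Fin n) ℂ), Respects Q X μ ∧ y = total x μ X}

/-- the fibre product of `T₀` and the torsor of the polarisations: the matrices `x ⊕ μ ⊕ X` such that `x ⊕ μ` is in `T₀`
and `X` respects the polarisations with the multiplier `μ` -/
def fibreProduct {r n N : ℕ} (Q : Fin N → Matrix (Fin n) (Fin n) ℂ) (T₀ : Set (Matrix (Fin r ⊕ Unit) (Fin r ⊕ Unit) ℂ)) :
    Set (Matrix ((Fin r ⊕ Unit) ⊕ (Fin n × Fin N)) ((Fin r ⊕ Unit) ⊕ (Fin n × Fin N)) ℂ) :=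
  {y | ∃ (x : Matrix (Fin r) (Fin r) ℂ) (μ : ℂ) (X : Fin N → Matrix (Fin n) (Fin n) ℂ),
    withTate x μ ∈ T₀ ∧ Respects Q X μ ∧ y = total x μ X}

/-- the projection to `M_0 ⊕ ℚ(-1)` -/
def proj {r n N : ℕ} (T : Set (Matrix ((Fin r ⊕ Unit) ⊕ (Fin n × Fin N)) ((Fin r ⊕ Unit) ⊕ (Fin n × Fin N)) ℂ)) :
    Set (Matrix (Fin r ⊕ Unit) (Fin r ⊕ Unit) ℂ) :=
  {w | ∃ (x : Matrix (Fin r) (Fin r) ℂ) (μ : ℂ) (X : Fin N → Matrix (Fin n) (Fin n) ℂ),
    w = withTate x μ ∧ total x μ X ∈ T}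

/-- the branch points: `t` inserted at place `m` in the sequence of the `a i` -/
noncomputable def branch {n : ℕ} (a : Fin n → ℝ) (m : Fin (n + 1)) (t : ℝ) : Fin (n + 1) → ℝ :=
  Fin.insertNth (α := fun _ => ℝ) m t a

/-- the period `∮ x^j dx / y`, `y² = ∏ (x - e i)`, over the loop around the segment `[e l, e (l + 1)]`, that is twice
the integral over the segment (principal branch of the square root) -/
noncomputable def period {n : ℕ} (e : Fin (n + 1) → ℝ) (l j : Fin n) : ℂ :=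
  2 * ∫ x in (e l.castSucc)..(e l.succ), (x : ℂ) ^ (j : ℕ) / (((∏ i, (x - e i) : ℝ) : ℂ) ^ (1 / 2 : ℂ))

/-- the polarisation in terms of the forms `x^j dx / y`, `y² = F(x) = ∑ c_k x^k`: entries `(i - j)/2 * c_(i+j+2)` -/
noncomputable def polDR (n : ℕ) (F : ℚ[X]) : Matrix (Fin n) (Fin n) ℚ :=
  Matrix.of fun i j => (((i : ℕ) : ℚ) - ((j : ℕ) : ℚ)) / 2 * F.coeff ((i : ℕ) + (j : ℕ) + 2)

theorem withTate_unit {r : ℕ} {x : Matrix (Fin r) (Fin r) ℂ} (hx : IsUnit x) {μ : ℂ} (hμ : μ ≠ 0) :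
    IsUnit (withTate x μ) := by
  rw [Matrix.isUnit_iff_isUnit_det] at hx ⊢
  have h1 : (Matrix.of fun _ _ => μ : Matrix Unit Unit ℂ).det = μ := by
    rw [Matrix.det_unique]
    rfl
  unfold withTate
  rw [Matrix.det_fromBlocks_zero₂₁, h1]
  exact hx.mul (isUnit_iff_ne_zero.2 hμ)

theorem cm_withTate {r : ℕ} (x : Matrix (Fin r) (Fin r) ℂ) (μ : ℂ) :
    Pool.Agent.Y123.SR.Cm (Sum.inr ()) (withTate x μ) := by
  rintro (k | ⟨⟩) hk
  · exact ⟨rfl, rfl⟩
  · exact absurd rfl hk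

theorem eq_withTate {r : ℕ} {x : Matrix (Fin r ⊕ Unit) (Fin r ⊕ Unit) ℂ}
    (h2 : Pool.Agent.Y123.SR.Cm (Sum.inr ()) x) :
    x = withTate (Matrix.of fun i j => x (Sum.inl i) (Sum.inl j)) (x (Sum.inr ()) (Sum.inr ())) := by
  ext i j
  rcases i with i | ⟨⟩
  · rcases j with j | ⟨⟩
    · rfl
    · exact (h2 (Sum.inl i) (by simp)).2
  · rcases j with j | ⟨⟩
    · exact (h2 (Sum.inl j) (by simp)).1
    · rfl

theorem fibreProduct_eq {r n N : ℕ} (Q : Fin N → Matrix (Fin n) (Fin n) ℂ)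
    {Ω₀ : Set (Matrix (Fin r ⊕ Unit) (Fin r ⊕ Unit) ℂ)} (hΩ : ∀ x ∈ Ω₀, IsUnit x) :
    Pool.Agent.Y123.SR.FP (fun j => (-1 / 2 : ℂ) • Q j) (Sum.inr ()) Ω₀ = fibreProduct Q Ω₀ := by
  ext y
  constructor
  · rintro ⟨x, X, h1, h2, h3, rfl⟩
    have h4 := eq_withTate h2
    refine ⟨Matrix.of fun i j => x (Sum.inl i) (Sum.inl j), x (Sum.inr ()) (Sum.inr ()), X, ?_,
      fun j => Pool.Agent.Y123.ST.rel_iff.2 (h3.2 j), ?_⟩
    · rw [← h4]
      exact h1
    · unfold Pool.Agent.Y123.SR.E2 total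
      rw [← h4]
  · rintro ⟨x, μ, X, h1, h2, rfl⟩
    have hcm := cm_withTate x μ
    have h0 := (Pool.Agent.Y123.SR.cm_inv (hΩ _ h1) hcm).2.1
    exact ⟨withTate x μ, X, h1, hcm, ⟨h0, fun j => Pool.Agent.Y123.ST.rel_iff.1 (h2 j)⟩, rfl⟩

theorem unit_block {r n N : ℕ} {x : Matrix (Fin r) (Fin r) ℂ} {μ : ℂ} {X : Fin N → Matrix (Fin n) (Fin n) ℂ}
    (h : IsUnit (total x μ X)) : IsUnit (withTate x μ) := by
  rw [Matrix.isUnit_iff_isUnit_det] at h ⊢
  unfold total at h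
  rw [Matrix.det_fromBlocks_zero₂₁] at h
  exact isUnit_of_mul_isUnit_left h

theorem respecting_sub {r n N : ℕ} (Q : Fin N → Matrix (Fin n) (Fin n) ℂ)
    {T : Set (Matrix ((Fin r ⊕ Unit) ⊕ (Fin n × Fin N)) ((Fin r ⊕ Unit) ⊕ (Fin n × Fin N)) ℂ)}
    (hT : ∀ x ∈ T, IsUnit x) (h : T ⊆ respecting Q) :
    T ⊆ Pool.Agent.Y123.SR.FP (fun j => (-1 / 2 : ℂ) • Q j) (Sum.inr ()) {x | IsUnit x} := by
  intro y hy
  obtain ⟨x, μ, X, h1, rfl⟩ := h hy
  have h2 := unit_block (hT _ hy)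
  have hcm := cm_withTate x μ
  exact ⟨withTate x μ, X, h2, hcm, ⟨(Pool.Agent.Y123.SR.cm_inv h2 hcm).2.1, fun j => Pool.Agent.Y123.ST.rel_iff.1 (h1 j)⟩,
    rfl⟩

theorem proj_eq {r n N : ℕ} (Q : Fin N → Matrix (Fin n) (Fin n) ℂ)
    {T : Set (Matrix ((Fin r ⊕ Unit) ⊕ (Fin n × Fin N)) ((Fin r ⊕ Unit) ⊕ (Fin n × Fin N)) ℂ)}
    (h : T ⊆ respecting Q) : {x | ∃ X, Pool.Agent.Y123.SR.E2 x X ∈ T} = proj T := by
  ext w
  constructor
  · rintro ⟨X, hX⟩
    obtain ⟨x, μ, X', h1, h2⟩ := h hX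
    obtain ⟨h3, h4⟩ := Pool.Agent.Y123.SR.E2_inj (show Pool.Agent.Y123.SR.E2 w X =
      Pool.Agent.Y123.SR.E2 (withTate x μ) X' from h2)
    refine ⟨x, μ, X, h3, ?_⟩
    rw [h3] at hX
    exact hX
  · rintro ⟨x, μ, X, rfl, h1⟩
    exact ⟨X, h1⟩

/-- the period matrix of `M_0 ⊕ ℚ(-1) ⊕ M_t`, where `C₀` is the period matrix of `M_0` -/
noncomputable def periods {r n N : ℕ} (C₀ : Matrix (Fin r) (Fin r) ℂ) (a : Fin N → Fin n → ℝ) (m : Fin N → Fin (n + 1))
    (t : Fin N → ℕ) : Matrix ((Fin r ⊕ Unit) ⊕ (Fin n × Fin N)) ((Fin r ⊕ Unit) ⊕ (Fin n × Fin N)) ℂ :=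
  total C₀ (2 * Real.pi * Complex.I) fun j => Matrix.of (period (branch (a j) (m j) (1 / (t j : ℝ))))

/-- the polarisations of the curves `y² = f_j(x) (x - 1 / t_j)` -/
noncomputable def pol {N : ℕ} (n : ℕ) (f : Fin N → ℚ[X]) (t : Fin N → ℕ) : Fin N → Matrix (Fin n) (Fin n) ℂ :=
  fun j => (polDR n (f j * (X - C (1 / (t j : ℚ))))).map (algebraMap ℚ ℂ)

/-- the properties 1 and 2 over the field `K` -/
def LargeOver (K : Subfield ℂ) {r n N : ℕ} (C₀ : Matrix (Fin r) (Fin r) ℂ) (a : Fin N → Fin n → ℝ)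
    (m : Fin N → Fin (n + 1)) (f : Fin N → ℚ[X]) (t : Fin N → ℕ) : Prop :=
  (∀ T' : Set (Matrix ((Fin r ⊕ Unit) ⊕ (Fin n × Fin N)) ((Fin r ⊕ Unit) ⊕ (Fin n × Fin N)) ℂ),
    IsSubtorsor K T' → periods C₀ a m t ∈ T' → T' ⊆ respecting (pol n f t) →
    IsSubtorsor K (proj T') ∧ T' = fibreProduct (pol n f t) (proj T')) ∧
  ∃ Ω₀, IsOmega K (withTate C₀ (2 * Real.pi * Complex.I)) Ω₀ ∧
    IsOmega K (periods C₀ a m t) (fibreProduct (pol n f t) Ω₀)

/-- the branch points are real and distinct, and the properties 1 and 2 hold over all number fields of degree at most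
`D` -/
def Good (D : ℕ) {r n N : ℕ} (C₀ : Matrix (Fin r) (Fin r) ℂ) (a : Fin N → Fin n → ℝ)
    (m : Fin N → Fin (n + 1)) (f : Fin N → ℚ[X]) (t : Fin N → ℕ) : Prop :=
  (∀ j, StrictMono (branch (a j) (m j) (1 / (t j : ℝ)))) ∧
  ∀ K : Subfield ℂ, FiniteDimensional ℚ K → Module.finrank ℚ K ≤ D → LargeOver K C₀ a m f t

theorem good_of {r n N D : ℕ} (hn : Even n) {C₀ : Matrix (Fin r) (Fin r) ℂ} (hC₀ : IsUnit C₀) {a : Fin N → Fin n → ℝ}
    {m : Fin N → Fin (n + 1)} {f : Fin N → ℚ[X]} {t : Fin N → ℕ}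
    (h : Pool.Agent.R351.GD.Hy.AllSub D (Sum.inr () : Fin r ⊕ Unit) (withTate C₀ (2 * Real.pi * Complex.I)) a m f t) :
    Good D C₀ a m f t := by
  have h2pi : (2 * Real.pi * Complex.I : ℂ) ≠ 0 := by
    have := Complex.I_ne_zero
    have h2 : (Real.pi : ℂ) ≠ 0 := by exact_mod_cast Real.pi_ne_zero
    exact mul_ne_zero (mul_ne_zero two_ne_zero h2) this
  have hu := withTate_unit hC₀ h2pi
  have hcm := cm_withTate C₀ (2 * Real.pi * Complex.I : ℂ)
  obtain ⟨h3, htor, h4'⟩ := h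
  refine ⟨h3, fun K hK hKD => ?_⟩
  have h4 := h4' K hK hKD
  have key : ∀ T' : Set (Matrix ((Fin r ⊕ Unit) ⊕ (Fin n × Fin N)) ((Fin r ⊕ Unit) ⊕ (Fin n × Fin N)) ℂ),
      IsSubtorsor K T' → periods C₀ a m t ∈ T' → T' ⊆ respecting (pol n f t) →
      IsSubtorsor K (proj T') ∧ T' = fibreProduct (pol n f t) (proj T') := by
    intro T' hT' hcT' hTr
    have hT'' := Pool.Agent.Y123.ST.subT_iff.1 hT'
    obtain ⟨h5, h6⟩ := h4 T' hT'' hcT' (respecting_sub _ hT''.isUnit hTr)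
    rw [proj_eq _ hTr] at h5 h6
    refine ⟨Pool.Agent.Y123.ST.subT_iff.2 h5, ?_⟩
    conv_lhs => rw [h6]
    exact fibreProduct_eq _ h5.isUnit
  refine ⟨key, ?_⟩
  have hΩ := Pool.Agent.Y123.SR.OmS_om (K := K) hu
  refine ⟨_, hΩ, ?_⟩
  have h5 := Pool.Agent.Y123.SR.om_of_all hn (fun j a' b' =>
    Pool.Agent.Y123.ST.half_mem (K := K) (Q := fun j => (polDR n (f j * (X - C (1 / (t j : ℚ))))).map (algebraMap ℚ ℂ))
      (fun j a b => SubfieldClass.ratCast_mem K _) j a' b') hu hcm htor h4 hΩ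
  rw [fibreProduct_eq _ (Pool.Agent.Y123.ST.subT_iff.1 hΩ.1).isUnit] at h5
  exact h5

open Classical in
theorem result (n N : ℕ) (hn : Even n) (hn0 : 0 < n) (a : Fin N → Fin n → ℝ) (f : Fin N → ℚ[X])
    (m : Fin N → Fin (n + 1)) (hf : ∀ j, (f j).map (algebraMap ℚ ℝ) = ∏ i, (X - C (a j i)))
    (h0 : ∀ j, StrictMono (branch (a j) (m j) 0)) (r : ℕ) :
    ∃ c : ℕ, ∀ C₀ : Matrix (Fin r) (Fin r) ℂ, IsUnit C₀ → ∀ D T : ℕ, 1 ≤ T →
      (((Fintype.piFinset fun _ : Fin N => Finset.Icc 1 T).filter fun t => ¬ Good D C₀ a m f t).card : ℝ) ≤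
        c * (T : ℝ) ^ ((N : ℝ) - 1 / ((D : ℝ) + 2) ^ c) := by
  obtain ⟨c, h1⟩ := Pool.Agent.R351.GD.Hy.sub_tuples hn hn0 N a f hf m h0 (r + 1)
  refine ⟨c, fun C₀ hC₀ D T hT => ?_⟩
  have h2pi : (2 * Real.pi * Complex.I : ℂ) ≠ 0 := by
    have := Complex.I_ne_zero
    have h2 : (Real.pi : ℂ) ≠ 0 := by exact_mod_cast Real.pi_ne_zero
    exact mul_ne_zero (mul_ne_zero two_ne_zero h2) this
  have hu := withTate_unit hC₀ h2pi
  have hcm := cm_withTate C₀ (2 * Real.pi * Complex.I : ℂ)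
  have h2 := h1 (Fin r ⊕ Unit) (Sum.inr ()) (withTate C₀ (2 * Real.pi * Complex.I)) (by simp) hu hcm rfl D T hT
  refine le_trans ?_ h2
  have h3 : ((Fintype.piFinset fun _ : Fin N => Finset.Icc 1 T).filter fun t => ¬ Good D C₀ a m f t) ⊆
      (Fintype.piFinset fun _ : Fin N => Finset.Icc 1 T).filter fun t =>
        ¬ Pool.Agent.R351.GD.Hy.AllSub D (Sum.inr () : Fin r ⊕ Unit) (withTate C₀ (2 * Real.pi * Complex.I)) a m f t := by
    intro t ht
    obtain ⟨ht1, ht2⟩ := Finset.mem_filter.1 ht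
    exact Finset.mem_filter.2 ⟨ht1, fun h => ht2 (good_of hn hC₀ h)⟩
  exact_mod_cast Finset.card_le_card h3

end Pool.Agent.Results.MP_470b79_ag.GrowingFieldSubtorsors
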