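import Pool.Agent.R917.DT.Mat
import Pool.Agent.R917.DT.PureF
import Pool.Agent.R917.DT.Rig

set_option autoImplicit false

/-!
# The de Rham-Betti conjecture for abelian varieties, in terms of torsors

Let `A` be an abelian variety over the field `ℚ̄` of algebraic numbers. The comparison isomorphism
`H^1_dR(A / ℚ̄) ⊗ ℂ → H^1(A, ℚ) ⊗ ℂ` is given by the periods. We consider all algebraic groups
`G ⊆ GL(H^1(A, ℚ))`, defined over `ℚ`, such that some torsor of `G`, defined over `ℚ̄`, contains the
comparison isomorphism (`ContainsPeriods`). The smallest one is `G_dRB(A)`, and its torsor is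
`Ω^dRB`. The Mumford-Tate group is the smallest algebraic group over `ℚ` which contains the image of
the Deligne torus.

**Theorem.** Let `B` be an abelian variety whose Hodge group is determined by the endomorphisms of
`B`: the Lie algebra of the Hodge group has no proper algebraic subalgebras which act semisimply on
`H_1(B, ℚ)` with the same commutant. Let `A` be a direct factor of `B` up to isogeny (for example
`A = B`). Then all these groups `G` contain the Mumford-Tate group of `A`.

So `Ω^dRB = Ω^And` for the motive `h^1(A)`, and for all motives generated by `h^1(A)`: the other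
inclusion is the theorem that all Hodge classes on abelian varieties are motivated (Deligne, André).

The group `G` is not assumed to be reductive, and no relation between `G` and the Hodge classes is
assumed. Nothing is assumed about the periods: `AbVar` is the description of an abelian variety over
`ℚ̄` by theta functions, and all theorems about transcendental numbers are proved in this repository.

A Lie algebra `𝔥` of matrices over `ℚ` is called algebraic if it is closed under the replicas of its
diagonalizable elements (`IsReplicaClosed`). This is the case for the Lie algebras of all algebraic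
groups over `ℚ` (Chevalley), and a Lie algebra which acts semisimply is the Lie algebra of an
algebraic group if and only if it has this property. So the hypothesis on `B` is that the Hodge group
has no proper connected reductive subgroups over `ℚ` with the commutant `End(B) ⊗ ℚ`.

Examples of determined abelian varieties `B`:

* the Kuga-Satake varieties of all Hodge structures `T` of K3 type (the transcendental part of the
  second cohomology of a K3 surface or of a hyperkähler variety) whose field `F` of endomorphisms is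
  totally real and which are not of rank five over `F` (`determined_of_typeSpin`, proved below): by
  the theorem of Zarhin the Hodge group of `T` is the restriction of scalars of `SO_F(T)`, `H_1(B)` is
  the even Clifford algebra `C⁺(T)`, and `E i` is the endomorphism `x ↦ e_i x e_1` of `C⁺(T ⊗ ℂ)`, for
  an orthonormal basis `e_i` of `T ⊗ ℂ`, adapted to the decomposition of `T ⊗ ℂ` given by `F`;
* the general abelian fourfolds of Weil type, with Hodge group `SU(2, 2)`: their homology is the spin
  representation of `so(6)` (`determined_of_typeSpin`);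
* the Kuga-Satake varieties of Hodge structures of K3 type whose field of endomorphisms `E` is a CM
  field, of even rank over `E`, if `E` is imaginary quadratic or the odd part of `ℚ ^ Hom(E, ℂ)` is an
  irreducible representation of the Galois group, which is the general case (the centre of `𝔤` is the
  odd part of `E`, and its algebraic subalgebras correspond to the subrepresentations):
  `determined_of_typeUnitary`, proved below;
* the simple abelian varieties with complex multiplication by a field `K` of degree `2 g` such that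
  the odd part of `ℚ ^ Hom(K, ℂ)` is an irreducible representation of the Galois group, for example
  if the Galois group is `{±1}^g ⋊ S_g` or cyclic of order `2^k` (`determined_of_typeTorus`, proved
  below). So all abelian surfaces `B` with `End(B) ≠ ℤ` are determined;
* the abelian varieties whose homology is a sum of planes (`determined_of_planes`, proved below):
  products of elliptic curves, with or without complex multiplication, of abelian varieties `C` with
  real multiplication by a totally real field of degree `dim C`, and of abelian varieties `C` with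
  multiplication by a totally indefinite quaternion algebra over a totally real field of degree
  `dim C / 2`. All factors of powers of Jacobians `J_1(N)` of modular curves are of this form;
* (not in this file) the fourfolds of Mumford.

Examples of factors `A` which are not determined: the general abelian varieties of even dimension
`n ≥ 4` with `End(A) ⊗ ℚ = E` an imaginary quadratic field, which acts on the tangent space with the
signature `(1, n - 1)`. The Hodge group is the unitary group, and its subgroup `SU` has the same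
commutant; but `A` is a factor of the Kuga-Satake variety of the Hodge structure
`Hom_E(H_1(E_0), H_1(A))` of K3 type (`E_0` is an elliptic curve with multiplication by `E`), which
is of unitary type. Similarly a simple abelian threefold `A` with complex multiplication by a field
which contains an imaginary quadratic field `E` is a factor of `A × E_0`, which is determined; so
all simple abelian threefolds with complex multiplication are factors of determined abelian
varieties.

As the Kuga-Satake correspondence is motivated (André), the motives `h^2(X)` and `h(X)` of the K3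
surfaces `X` for which the field of endomorphisms of `T` is totally real (and `T` is not of rank five
over it) or a CM field as above (and `T` is of even rank over it) are generated by `h^1(B)`, after a
finite extension of the field of definition, and so `Ω^dRB = Ω^And` for them.

## Proof

The Lie algebra of `G` is defined over `ℚ` and stable under linear maps, so it contains the rational
components of all logarithmic derivatives of the period matrix. Those of its elements which, after
the subtraction of a scalar, annihilate all classes which are Hodge classes and de Rham-Betti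
classes, form a Lie algebra `𝔮` which acts semisimply on `H_1(A, ℚ)` and has the same commutant as
the Lie algebra of the Hodge group, by the theorem of Schneider and Lang. By the transcendence of `π`
it contains an element `Z` of the centre of the Lie algebra of the Hodge group such that `Z + c` is
in the Lie algebra of `G`, with `c ≠ 0`. The element `Z` is diagonalizable with imaginary eigenvalues
(`imag_roots`), and the replica of `Z + c` for the additive map `z ↦ Re z` is `c`. So the Lie algebra
of `G` contains the scalars, and `𝔮` is contained in it and closed under replicas (Chevalley).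

Let `A` be a factor of `B`. The elements of the Lie algebra of the Hodge group of `B` whose
restriction to `H_1(A, ℚ)` is in `𝔮` form a Lie algebra which contains the logarithmic derivatives of
the periods of `B`, and it is closed under replicas. So it acts semisimply on `H_1(B, ℚ)`, with the
same commutant, and by hypothesis it is equal to the Lie algebra of the Hodge group of `B`. In
particular the components of the complex structure of `H_1(A, ℝ)` are in `𝔮` (`detJ_of_fac`). The
exponential function shows that `G` contains the image of the Deligne torus.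
-/

open Module Matrix Pool.Agent.Y102 Pool.Agent.W516.DR Pool.Agent.H204R3.GP Pool.Agent.R917.OM
  Pool.Agent.R917.DT

noncomputable section

namespace Pool.Agent.Results.MP_470b79_ag.KugaSatakeTorsors

variable {g : ℕ} (A : AbVar g)

/-! ### The hypothesis on the Lie algebra of the Hodge group of the abelian variety -/

/-- The rational matrices which act on `H_1(A, ℚ) = ℚ^(2g)` (the basis is the basis of the
lattice). -/
abbrev Mat (g : ℕ) : Type := Matrix (Fin (2 * g)) (Fin (2 * g)) ℚ

/-- The multilinear forms in `2m` variables in the rational homology. -/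
abbrev Form (m : ℕ) : Type := MultilinearMap ℚ (fun _ : Fin m × Fin 2 => A.H1) ℚ

/-- `φ` is a de Rham-Betti class in `H^1(A) ^ {⊗ 2m} (m)`. -/
def IsDRB {m : ℕ} (φ : Form A m) : Prop :=
  IsDeRhamBettiForm QBar A.dR (2 * Real.pi * Complex.I) m φ

/-- `φ` is a Hodge class in `H^1(A) ^ {⊗ 2m} (m)`. -/
def IsHodge {m : ℕ} (φ : Form A m) : Prop := IsHodgeTensor (A.per : A.H1 →+ (Fin g → ℂ)) φ

/-- The matrix `X` annihilates the form `φ` (as a derivation). -/
def Annihilates {m : ℕ} (X : Mat g) (φ : Form A m) : Prop :=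
  ∀ v : Fin m × Fin 2 → Fin (2 * g) → ℚ, ∑ k, φ (Function.update v k (X *ᵥ v k)) = 0

/-- `X` is in the Lie algebra `𝔤` of the Hodge group: it annihilates all classes that are Hodge
classes and de Rham-Betti classes (by the theorem of Deligne all Hodge classes are de Rham-Betti
classes). -/
def InLie (X : Mat g) : Prop :=
  ∀ (m : ℕ) (φ : Form A m), IsHodge A φ → IsDRB A φ → Annihilates A X φ

/-- The subspace `𝔥` is a Lie algebra contained in `𝔤`. -/
def IsSubalgebra (𝔥 : Submodule ℚ (Mat g)) : Prop :=
  (∀ X ∈ 𝔥, InLie A X) ∧ ∀ X ∈ 𝔥, ∀ Y ∈ 𝔥, X * Y - Y * X ∈ 𝔥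

/-- The subspace `U` of the homology is stable under the elements of `𝔥`. -/
def Stable (𝔥 : Submodule ℚ (Mat g)) (U : Submodule ℚ (Fin (2 * g) → ℚ)) : Prop :=
  ∀ X ∈ 𝔥, ∀ u ∈ U, X *ᵥ u ∈ U

/-- The action of `𝔥` on the homology is semisimple. -/
def IsSemisimple (𝔥 : Submodule ℚ (Mat g)) : Prop :=
  ∀ U, Stable 𝔥 U → ∃ U', Stable 𝔥 U' ∧ IsCompl U U'

/-- Every matrix which commutes with `𝔥` commutes with `𝔤`. -/
def SameCommutant (𝔥 : Submodule ℚ (Mat g)) : Prop :=
  ∀ P : Mat g, (∀ X ∈ 𝔥, X * P = P * X) → ∀ X : Mat g, InLie A X → X * P = P * X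

/-- The complex matrix of a rational matrix. -/
def cplx (X : Mat g) : Matrix (Fin (2 * g)) (Fin (2 * g)) ℂ := X.map (algebraMap ℚ ℂ)

/-- `𝔥` is closed under the replicas of its diagonalizable elements. Let `X ∈ 𝔥` be diagonalizable
over `ℂ`, with eigenvalues in the finite set `S`, let `σ : ℂ → ℂ` be additive, and let `Q` be a
polynomial with `Q(a) = σ(a)` for all `a ∈ S`. Then the matrix `Q(X)` is in the complex span of
`𝔥`. -/
def IsReplicaClosed (𝔥 : Submodule ℚ (Mat g)) : Prop :=
  ∀ X ∈ 𝔥, ∀ (S : Finset ℂ) (σ : ℂ →+ ℂ) (Q : Polynomial ℂ),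
    Polynomial.aeval (cplx X) (∏ a ∈ S, (Polynomial.X - Polynomial.C a)) = 0 →
    (∀ a ∈ S, Q.eval a = σ a) →
      Polynomial.aeval (cplx X) Q ∈ Submodule.span ℂ {Y | ∃ Z ∈ 𝔥, Y = cplx Z}

/-- The Hodge group of `A` is determined by the endomorphisms of `A`: its Lie algebra `𝔤` has no
proper algebraic subalgebra `𝔥` which acts semisimply on the homology and has the same
commutant. -/
def Determined : Prop := ∀ 𝔥 : Submodule ℚ (Mat g), IsSubalgebra A 𝔥 → IsReplicaClosed 𝔥 →
  IsSemisimple 𝔥 → SameCommutant A 𝔥 → ∀ X, InLie A X → X ∈ 𝔥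

/-! ### Factors -/

/-- `f` is a homomorphism (up to isogeny) from `A` to `B`: it is given by a linear map of the tangent
spaces, and the pull backs of the algebraic differential forms are algebraic. -/
def IsHomomorphism {g' : ℕ} (B : AbVar g') (f : A.H1 →ₗ[ℚ] B.H1) : Prop :=
  (∃ F : (Fin g → ℂ) →ₗ[ℂ] (Fin g' → ℂ), ∀ w, F (A.per w) = B.per (f w)) ∧
    ∃ e : Fin g' ⊕ Fin g' → Fin g ⊕ Fin g → QBar,
      ∀ i w, B.dR i (f w) = ∑ j, algebraMap QBar ℂ (e i j) * A.dR j w

/-- `A` is a direct factor of `B`, up to isogeny. -/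
def IsFactor {g' : ℕ} (B : AbVar g') : Prop :=
  ∃ (f : A.H1 →ₗ[ℚ] B.H1) (p : B.H1 →ₗ[ℚ] A.H1), IsHomomorphism A B f ∧
    IsHomomorphism B A p ∧ ∀ w, p (f w) = w

/-! ### Algebraic groups, periods and the Mumford-Tate group -/

/-- A subgroup of `GL_R(ℂ)` defined by polynomials with rational coefficients. -/
def IsAlgebraicSubgroup {R : Type} [Fintype R] [DecidableEq R] (G : Subgroup (GL R ℂ)) : Prop :=
  ∃ I : Set (MvPolynomial (R × R) ℚ), ∀ x : GL R ℂ, x ∈ G ↔
    ∀ p ∈ I, MvPolynomial.aeval (fun b : R × R => (x : Matrix R R ℂ) b.1 b.2) p = 0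

/-- The comparison isomorphism: the periods of the basis of `H^1_dR(A / ℚ̄)` (the columns) on the
basis of the lattice (the rows). -/
def periodMatrix : Matrix (Fin (2 * g)) (Fin g ⊕ Fin g) ℂ :=
  Matrix.of fun j i => A.dR i (Pi.single j 1)

/-- The comparison isomorphism `c` is an element of a torsor `G · T⁻¹` of `G`, defined over the
algebraic numbers: `T` is a matrix with algebraic entries (an isomorphism from the Betti side to the
de Rham side) such that `c T ∈ G`. -/
def ContainsPeriods (G : Subgroup (GL (Fin (2 * g)) ℂ)) : Prop :=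
  ∃ T : Matrix (Fin g ⊕ Fin g) (Fin (2 * g)) ℂ, (∀ i j, IsAlgebraic ℚ (T i j)) ∧
    ∃ x ∈ G, (x : Matrix (Fin (2 * g)) (Fin (2 * g)) ℂ) = periodMatrix A * T

/-- The Hodge structure of `H^1(A)`: the complex number `z` acts on `H_1(A, ℝ) = ℂ ^ g` by
multiplication, and on `H^1(A, ℝ)` by the transposed map, here in the basis of `H^1(A, ℚ)` which is
dual to the basis of the lattice. -/
def hodge (z : ℂ) : Matrix (Fin (2 * g)) (Fin (2 * g)) ℂ :=
  Matrix.of fun i j => ((A.lam.repr (z • A.lam i) j : ℝ) : ℂ)

/-- The Mumford-Tate group of `H^1(A)`: the smallest algebraic group over `ℚ` which contains the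
image of the Deligne torus. -/
def mumfordTate : Subgroup (GL (Fin (2 * g)) ℂ) :=
  sInf {G | IsAlgebraicSubgroup G ∧ ∀ z : ℂ, z ≠ 0 → ∃ x ∈ G,
    (x : Matrix (Fin (2 * g)) (Fin (2 * g)) ℂ) = hodge A z}

/-! ### Proofs -/

/-- The matrix of an endomorphism of the homology. -/
def mat (X : Module.End ℚ A.H1) : Mat g := LinearMap.toMatrix' X

theorem mat_mulVec (X : Module.End ℚ A.H1) (v : Fin (2 * g) → ℚ) : mat A X *ᵥ v = X v :=
  LinearMap.toMatrix'_mulVec X v

theorem mat_mul (X Y : Module.End ℚ A.H1) : mat A (X * Y) = mat A X * mat A Y :=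
  LinearMap.toMatrix'_mul X Y

theorem mat_br (X Y : Module.End ℚ A.H1) :
    mat A (X * Y - Y * X) = mat A X * mat A Y - mat A Y * mat A X := by
  rw [← mat_mul, ← mat_mul]
  exact map_sub (LinearMap.toMatrix' : _ ≃ₗ[ℚ] Mat g) _ _

theorem mat_inj {X Y : Module.End ℚ A.H1} (h : mat A X = mat A Y) : X = Y :=
  (LinearMap.toMatrix' : _ ≃ₗ[ℚ] Mat g).injective h

theorem mat_surj (X : Mat g) : ∃ Y : Module.End ℚ A.H1, mat A Y = X :=
  (LinearMap.toMatrix' : _ ≃ₗ[ℚ] Mat g).surjective X

theorem inLie_mat {X : Module.End ℚ A.H1} : InLie A (mat A X) ↔ X ∈ A.NA := by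
  constructor
  · intro h m φ h1 h2 v
    have h3 := h m φ h1 h2 v
    simp only [mat_mulVec] at h3
    exact h3
  · intro h m φ h1 h2 v
    simp only [mat_mulVec]
    exact h m φ h1 h2 v

theorem cplx_mat (X : Module.End ℚ A.H1) : cplx (mat A X) = toC X := (toC_eq X).symm

theorem span_mat (𝔥 : Submodule ℚ (Module.End ℚ A.H1)) (𝔥' : Submodule ℚ (Mat g))
    (h : ∀ X : Module.End ℚ A.H1, mat A X ∈ 𝔥' ↔ X ∈ 𝔥) :
    Submodule.span ℂ {Y | ∃ Z ∈ 𝔥', Y = cplx Z} = Submodule.span ℂ {Y | ∃ Z ∈ 𝔥, Y = toC Z} := by
  congr 1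
  ext Y
  constructor
  · rintro ⟨Z, hZ, rfl⟩
    obtain ⟨Z, rfl⟩ := mat_surj A Z
    exact ⟨Z, (h Z).1 hZ, cplx_mat A Z⟩
  · rintro ⟨Z, hZ, rfl⟩
    exact ⟨mat A Z, (h Z).2 hZ, (cplx_mat A Z).symm⟩

theorem det_of_determined (hA : Determined A) : Det A := by
  intro 𝔥 h hRC
  let 𝔥' : Submodule ℚ (Mat g) := 𝔥.map (LinearMap.toMatrix' : _ ≃ₗ[ℚ] Mat g).toLinearMap
  have hmem : ∀ X : Module.End ℚ A.H1, mat A X ∈ 𝔥' ↔ X ∈ 𝔥 := by
    intro X
    constructor
    · rintro ⟨Y, hY, hYX⟩
      rw [← mat_inj A hYX]
      exact hY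
    · intro hX
      exact ⟨X, hX, rfl⟩
  intro X hX
  rw [← hmem]
  refine hA 𝔥' ⟨?_, ?_⟩ ?_ ?_ ?_ _ ((inLie_mat A).2 hX)
  · rintro _ ⟨Y, hY, rfl⟩
    exact (inLie_mat A).2 (h.le hY)
  · rintro _ ⟨Y, hY, rfl⟩ _ ⟨Z, hZ, rfl⟩
    have h1 := (hmem (Y * Z - Z * Y)).2 (h.br Y hY Z hZ)
    rw [mat_br] at h1
    exact h1
  · rintro _ ⟨Y, hY, rfl⟩ S σ Q hS hQ
    rw [span_mat A 𝔥 𝔥' hmem]
    change Polynomial.aeval (cplx (mat A Y)) _ = 0 at hS
    change Polynomial.aeval (cplx (mat A Y)) Q ∈ _
    rw [cplx_mat] at hS ⊢
    exact rc_iff.1 hRC Y hY S σ Q hS hQ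
  · intro U hU
    obtain ⟨U', h1, h2⟩ := h.semi U (fun Y hY u hu => by
      have h3 := hU _ ((hmem Y).2 hY) u hu
      rwa [mat_mulVec] at h3)
    refine ⟨U', ?_, h2⟩
    rintro _ ⟨Y, hY, rfl⟩ u hu
    have h3 := h1 Y hY u hu
    rwa [← mat_mulVec] at h3
  · intro P hP Y hY
    obtain ⟨P, rfl⟩ := mat_surj A P
    obtain ⟨Y, rfl⟩ := mat_surj A Y
    rw [← mat_mul, ← mat_mul]
    congr 1
    refine h.comm P (fun Z hZ => mat_inj A ?_) Y ((inLie_mat A).1 hY)
    rw [mat_mul, mat_mul]
    exact hP _ ((hmem Z).2 hZ)

theorem determined_of_det (hA : Det A) : Determined A := by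
  intro 𝔥 hsub hrc hsemi hcomm X hX
  obtain ⟨X, rfl⟩ := mat_surj A X
  let 𝔥' : Submodule ℚ (Module.End ℚ A.H1) :=
    𝔥.comap (LinearMap.toMatrix' : _ ≃ₗ[ℚ] Mat g).toLinearMap
  have hmem : ∀ X : Module.End ℚ A.H1, mat A X ∈ 𝔥 ↔ X ∈ 𝔥' := fun _ => Iff.rfl
  refine hA 𝔥' ⟨fun Y hY => (inLie_mat A).1 (hsub.1 _ hY), fun Y hY Z hZ => ?_, fun U hU => ?_,
    fun P hP Y hY => ?_⟩ (rc_iff.2 fun Y hY S σ Q hS hQ => ?_) ((inLie_mat A).1 hX)
  · change mat A (Y * Z - Z * Y) ∈ 𝔥
    rw [mat_br]
    exact hsub.2 _ hY _ hZ
  · obtain ⟨U', h1, h2⟩ := hsemi U (fun Y hY u hu => by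
      obtain ⟨Y, rfl⟩ := mat_surj A Y
      rw [mat_mulVec]
      exact hU Y hY u hu)
    refine ⟨U', fun Y hY u hu => ?_, h2⟩
    have h3 := h1 _ hY u hu
    rwa [show (LinearMap.toMatrix' : _ ≃ₗ[ℚ] Mat g).toLinearMap Y = mat A Y from rfl,
      mat_mulVec] at h3
  · refine mat_inj A ?_
    rw [mat_mul, mat_mul]
    refine hcomm _ (fun Z hZ => ?_) _ ((inLie_mat A).2 hY)
    obtain ⟨Z, rfl⟩ := mat_surj A Z
    rw [← mat_mul, ← mat_mul]
    exact congrArg (mat A) (hP Z hZ)
  · rw [← span_mat A 𝔥' 𝔥 hmem, ← cplx_mat]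
    rw [← cplx_mat] at hS
    exact hrc _ hY S σ Q hS hQ

/-- **Theorem.** Every algebraic group over `ℚ` with a torsor over `ℚ̄` which contains the comparison
isomorphism of a factor of a determined abelian variety contains the Mumford-Tate group. -/
theorem result (g' : ℕ) (B : AbVar g') (hB : Determined B) (g : ℕ) (A : AbVar g)
    (hA : IsFactor A B) (G : Subgroup (GL (Fin (2 * g)) ℂ)) (hG : IsAlgebraicSubgroup G)
    (hP : ContainsPeriods A G) : mumfordTate A ≤ G := by
  obtain ⟨T, hT, x, hx, hxT⟩ := hP
  obtain ⟨f, p, hf, hp, hpf⟩ := hA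
  have hpt := Pool.Agent.R917.pt_of (A := A) hG hT hx hxT
  have hJ : DetJ A := detJ_of_fac (f := f) (p := p) ⟨⟨hf.1, hf.2⟩, ⟨hp.1, hp.2⟩, hpf⟩
    (det_of_determined B hB)
  refine sInf_le ⟨hG, fun z hz => ?_⟩
  exact hm_mem' hJ hpt hz

/-- Every abelian variety is a factor of itself. -/
theorem isFactor_self {g : ℕ} (A : AbVar g) : IsFactor A A := by
  classical
  have h : IsHomomorphism A A LinearMap.id := by
    refine ⟨⟨LinearMap.id, fun w => rfl⟩, fun i j => if i = j then 1 else 0, fun i w => ?_⟩
    rw [Finset.sum_eq_single i]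
    · beta_reduce
      rw [if_pos rfl, map_one, one_mul]
      rfl
    · intro j _ hj
      beta_reduce
      rw [if_neg (Ne.symm hj), map_zero, zero_mul]
    · intro h
      exact absurd (Finset.mem_univ _) h
  exact ⟨LinearMap.id, LinearMap.id, h, h, fun w => rfl⟩

/-! ### Kuga-Satake varieties -/

/-- The complex Lie algebra `𝔤 ⊗ ℂ`, acting on `H_1(A, ℂ)`. -/
def lieC : Submodule ℂ (Matrix (Fin (2 * g)) (Fin (2 * g)) ℂ) :=
  Submodule.span ℂ {Y | ∃ X, InLie A X ∧ Y = X.map (algebraMap ℚ ℂ)}

/-- The Lie algebra `𝔤 ⊗ ℂ` is a sum of `k` orthogonal Lie algebras `so(r)`, acting by spin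
representations, and `r` is at least three and not five: the `E i` are the generators of a Clifford
algebra acting on `H_1(A, ℂ)`, each of them has one of `k` colours, each colour is used `r` times,
and `𝔤 ⊗ ℂ` is spanned by the products of two different generators of the same colour. -/
def TypeSpin : Prop :=
  ∃ (N k r : ℕ) (E : Fin N → Matrix (Fin (2 * g)) (Fin (2 * g)) ℂ) (c : Fin N → Fin k),
    3 ≤ r ∧ r ≠ 5 ∧ (∀ i, E i * E i = 1) ∧ (∀ i j, i ≠ j → E i * E j = -(E j * E i)) ∧
    (∀ σ, (Finset.univ.filter fun j => c j = σ).card = r) ∧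
    lieC A = Submodule.span ℂ {Y | ∃ i j, i ≠ j ∧ c i = c j ∧ Y = E i * E j}

theorem lieC_eq : lieC A = Submodule.span ℂ {Y | ∃ X ∈ A.NA, Y = toC X} := by
  unfold lieC
  congr 1
  ext Y
  constructor
  · rintro ⟨X, hX, rfl⟩
    obtain ⟨X, rfl⟩ := mat_surj A X
    exact ⟨X, (inLie_mat A).1 hX, (toC_eq X).symm⟩
  · rintro ⟨X, hX, rfl⟩
    exact ⟨mat A X, (inLie_mat A).2 hX, toC_eq X⟩

/-- The Kuga-Satake varieties are determined. -/
theorem determined_of_typeSpin (h : TypeSpin A) : Determined A := by
  obtain ⟨N, k, r, E, c, h3, h5, e1, e2, hc, hl⟩ := h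
  rw [lieC_eq] at hl
  exact determined_of_det A fun 𝔥 hf _ => hf.of_spinMat h3 h5 e1 e2 hc hl

/-! ### Unitary type -/

/-- The centre of the Lie algebra `𝔤` has no proper nonzero algebraic subalgebras. -/
def SimpleCentre : Prop := ∀ 𝔷 : Submodule ℚ (Mat g),
  (∀ X ∈ 𝔷, InLie A X ∧ ∀ Y : Mat g, InLie A Y → X * Y = Y * X) → IsReplicaClosed 𝔷 →
    𝔷 = ⊥ ∨ ∀ X : Mat g, InLie A X → (∀ Y : Mat g, InLie A Y → X * Y = Y * X) → X ∈ 𝔷

/-- The Lie algebra `𝔤 ⊗ ℂ` is a sum of `k` algebras `gl(W_σ)` with `W_σ` of even dimension, acting on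
`H_1(A, ℂ)` by a multiple of the tensor product of the exterior algebras of the `W_σ`, twisted by the
inverses of the square roots of the determinants: the `a i` and `b i` are creation and annihilation
operators, each of them has one of `k` colours, each colour is used an even number of times, and
`𝔤 ⊗ ℂ` is spanned by the matrices `a i * b j - δ i j / 2`, `i` and `j` of the same colour. If there
is more than one colour, the centre of `𝔤` has no proper nonzero algebraic subalgebras. -/
def TypeUnitary : Prop :=
  ∃ (n k : ℕ) (a b : Fin n → Matrix (Fin (2 * g)) (Fin (2 * g)) ℂ) (c : Fin n → Fin k),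
    (∀ σ, Even (Finset.univ.filter fun j => c j = σ).card) ∧
    (∀ i j, a i * a j = -(a j * a i)) ∧ (∀ i j, b i * b j = -(b j * b i)) ∧
    (∀ i j, a i * b j + b j * a i = if i = j then 1 else 0) ∧
    lieC A = Submodule.span ℂ {Y | ∃ i j, c i = c j ∧
      Y = a i * b j - if i = j then (2⁻¹ : ℂ) • 1 else 0} ∧
    (k = 1 ∨ SimpleCentre A)

theorem simpleCentre_CN (h : SimpleCentre A) (𝔷 : Submodule ℚ (Module.End ℚ A.H1))
    (hz : 𝔷 ≤ A.CN) (hRC : RC 𝔷) : 𝔷 = ⊥ ∨ A.CN ≤ 𝔷 := by
  let 𝔷' : Submodule ℚ (Mat g) := 𝔷.map (LinearMap.toMatrix' : _ ≃ₗ[ℚ] Mat g).toLinearMap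
  have hmem : ∀ X : Module.End ℚ A.H1, mat A X ∈ 𝔷' ↔ X ∈ 𝔷 := by
    intro X
    constructor
    · rintro ⟨Y, hY, hYX⟩
      rw [← mat_inj A hYX]
      exact hY
    · intro hX
      exact ⟨X, hX, rfl⟩
  have h1 : ∀ X ∈ 𝔷', InLie A X ∧ ∀ Y : Mat g, InLie A Y → X * Y = Y * X := by
    rintro _ ⟨X, hX, rfl⟩
    have h2 := hz hX
    refine ⟨(inLie_mat A).2 h2.1, fun Y hY => ?_⟩
    obtain ⟨Y, rfl⟩ := mat_surj A Y
    have h3 := congrArg (mat A) (h2.2 Y ((inLie_mat A).1 hY))
    rw [mat_mul, mat_mul] at h3
    exact h3.symm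
  have h2 : IsReplicaClosed 𝔷' := by
    rintro _ ⟨Y, hY, rfl⟩ S σ Q hS hQ
    rw [span_mat A 𝔷 𝔷' hmem]
    change Polynomial.aeval (cplx (mat A Y)) _ = 0 at hS
    change Polynomial.aeval (cplx (mat A Y)) Q ∈ _
    rw [cplx_mat] at hS ⊢
    exact rc_iff.1 hRC Y hY S σ Q hS hQ
  rcases h 𝔷' h1 h2 with h0 | h0
  · left
    rw [eq_bot_iff]
    intro X hX
    have h3 := (hmem X).2 hX
    rw [h0, Submodule.mem_bot] at h3
    rw [Submodule.mem_bot]
    exact mat_inj A (h3.trans (map_zero (LinearMap.toMatrix' : _ ≃ₗ[ℚ] Mat g)).symm)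
  · right
    intro X hX
    rw [← hmem]
    refine h0 _ ((inLie_mat A).2 hX.1) fun Y hY => ?_
    obtain ⟨Y, rfl⟩ := mat_surj A Y
    rw [← mat_mul, ← mat_mul, hX.2 Y ((inLie_mat A).1 hY)]

/-- The abelian varieties of unitary type are determined. -/
theorem determined_of_typeUnitary (h : TypeUnitary A) : Determined A := by
  obtain ⟨n, k, a, b, c, hn, aa, bb, hab, hl, hk⟩ := h
  have hev : ∀ i : Fin n, Even (Finset.univ.filter fun j => c j = c i).card := fun i => hn (c i)
  have hl' : Submodule.span ℂ {Y | ∃ X ∈ A.NA, Y = toC X} =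
      Submodule.span ℂ {Y | ∃ i j, c i = c j ∧ Y = Pool.Agent.R912.gM a b i j} := by
    rw [← lieC_eq, hl]
    rfl
  rcases hk with hk | hk
  · subst hk
    exact determined_of_det A fun 𝔥 hf _ => Pool.Agent.R912.full_unitary1 hf
      (Pool.Agent.R912.car_mat aa bb hab) (Pool.Agent.R912.cx_NA_eq aa bb hab hev hl') hev
      fun i j => Subsingleton.elim _ _
  · exact determined_of_det A (det_unitary (Pool.Agent.R912.car_mat aa bb hab)
      (Pool.Agent.R912.cx_NA_eq aa bb hab hev hl') hev (simpleCentre_CN A hk))

/-! ### Complex multiplication -/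

/-- The Lie algebra `𝔤` is commutative and has no proper nonzero algebraic subalgebras: the Hodge
group is a simple torus. -/
def TypeTorus : Prop :=
  (∀ X Y : Mat g, InLie A X → InLie A Y → X * Y = Y * X) ∧ SimpleCentre A

/-- The abelian varieties with complex multiplication whose Hodge group is a simple torus are
determined. -/
theorem determined_of_typeTorus (h : TypeTorus A) : Determined A := by
  refine determined_of_det A (det_torus (fun X hX Y hY => ?_) (simpleCentre_CN A h.2))
  have h1 := h.1 (mat A X) (mat A Y) ((inLie_mat A).2 hX) ((inLie_mat A).2 hY)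
  rw [← mat_mul, ← mat_mul] at h1
  exact mat_inj A h1

/-! ### Sums of planes -/

namespace Planes

/-- The endomorphisms of the rational homology `H_1(A, ℚ) = ℚ^(2g)` (the basis is the basis of the
lattice). -/
abbrev EndH (g : ℕ) : Type := Module.End ℚ (Fin (2 * g) → ℚ)

/-- The endomorphisms of the complex homology `H_1(A, ℂ) = ℂ^(2g)`. -/
abbrev MatC (g : ℕ) : Type := Matrix (Fin (2 * g)) (Fin (2 * g)) ℂ

/-- The complex matrix of a rational endomorphism. -/
def mat (T : EndH g) : MatC g := (LinearMap.toMatrix' T).map (algebraMap ℚ ℂ)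

/-- `T` is an endomorphism of `A` over `ℂ`, up to isogeny (an element of `End(A_ℂ) ⊗ ℚ`): it extends
to a complex linear endomorphism of the tangent space `ℂ ^ g`. -/
def IsComplexEnd (T : EndH g) : Prop := IsHodgeEnd (A.per : A.H1 →+ (Fin g → ℂ)) T

/-- `T` is an endomorphism of `A` over `ℚ̄`, up to isogeny, in terms of its action on
`H^1_dR(A / ℚ̄)`: the periods and quasi-periods of `T(w)` are linear combinations with algebraic
coefficients of those of `w`. -/
def IsAlgebraicEnd (T : EndH g) : Prop := IsDeRhamBettiEnd QBar A.dR T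

/-- The matrix of the Riemann form of the polarization in the basis of the lattice. -/
def riemannMatrix : MatC g := Matrix.of fun i j =>
  (∑ k, (A.η i k * A.lam j k - A.η j k * A.lam i k)) / (2 * Real.pi * Complex.I)

/-- The projector `P` is symmetric with respect to the polarization. -/
def IsSymmetric (P : MatC g) : Prop := Pᵀ * riemannMatrix A = riemannMatrix A * P

/-- The homology `H_1(A, ℂ)` is the sum of the planes `V_i = P_i H_1(A, ℂ)`, `i = 1, ..., g`, given
by projectors `P_i` of rank two in `End(A) ⊗ ℂ`. Each of them is the homology of an elliptic curve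
(`P_i` is rational), or `P_i` is symmetric and `P_i End(A) P_i = ℂ P_i`. Two of the elliptic curves
are isogenous over `ℚ̄` or not isogenous over `ℂ` (this is always the case for elliptic curves over
`ℚ̄`). -/
structure IsPlaneDecomposition (P : Fin g → MatC g) : Prop where
  algebraic : ∀ i, P i ∈ Submodule.span ℂ {M | ∃ T, IsAlgebraicEnd A T ∧ M = mat T}
  projector : ∀ i, P i * P i = P i
  sum : ∑ i, P i = 1
  plane : ∀ i, (P i).trace = 2
  type : ∀ i, (∃ E : EndH g, P i = mat E) ∨
    (IsSymmetric A (P i) ∧ ∀ T, IsAlgebraicEnd A T → ∃ z : ℂ, P i * mat T * P i = z • P i)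
  isogeny : ∀ i j (E E' : EndH g), i ≠ j → P i = mat E → P j = mat E' →
    (∃ T, IsAlgebraicEnd A T ∧ E' * T * E ≠ 0) ∨ ∀ T, IsComplexEnd A T → E' * T * E = 0

/-- The homology of `A` is a sum of planes as above. -/
def IsSumOfPlanes : Prop := ∃ P : Fin g → MatC g, IsPlaneDecomposition A P

theorem mat_eq (T : EndH g) : mat T = toC T := (toC_eq T).symm

theorem matE_mat (T : EndH g) : matE (2 * g) (mat T) = T.baseChange ℂ := by
  rw [mat_eq, matE_toC]

theorem riemannMatrix_eq : riemannMatrix A = Pool.Agent.R917.GL.omM A := by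
  have hl : ∀ j, A.per (Pi.single j 1) = A.lam j := by
    intro j
    unfold AbVar.per
    rw [Fintype.linearCombination_apply_single, one_smul]
  ext i j
  have h1 : ((A.om (Pi.single i 1) (Pi.single j 1) : ℚ) : ℂ) =
      ((A.E (A.lam i) (A.lam j) : ℝ) : ℂ) := by
    rw [← hl i, ← hl j, ← A.om_coe]
    exact (Complex.ofReal_ratCast _).symm
  change _ = ((A.om (Pi.single i 1) (Pi.single j 1) : ℚ) : ℂ)
  rw [h1, A.E_coe]
  unfold riemannForm
  have h2 : ∀ i k, (∑ j, (A.lam.repr (A.lam i) j : ℂ) * A.η j k) = A.η i k := by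
    intro i k
    rw [Finset.sum_eq_single i]
    · rw [Basis.repr_self, Finsupp.single_eq_same]
      push_cast
      ring
    · intro j _ hj
      rw [Basis.repr_self, Finsupp.single_eq_of_ne hj]
      push_cast
      ring
    · intro h
      exact absurd (Finset.mem_univ _) h
  simp only [h2]
  rfl

/-- The data of the isogeny classes. -/
theorem exists_classes (hA : IsSumOfPlanes A) :
    ∃ (C : Type) (_ : Finite C), Nonempty (Pool.Agent.R917.EC.CMS A C) := by
  obtain ⟨P, hP⟩ := hA
  have hcx : ∀ i, matE (2 * g) (P i) ∈ cx A.EA := by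
    intro i
    have h1 : P i ∈ Submodule.span ℂ {Y | ∃ X ∈ A.EA, Y = toC X} := by
      refine Submodule.span_mono ?_ (hP.algebraic i)
      rintro _ ⟨T, hT, rfl⟩
      exact ⟨T, A.mem_EA.2 hT, mat_eq T⟩
    have h2 := Submodule.mem_map_of_mem (f := (matE (2 * g)).toLinearMap) h1
    rw [map_lie] at h2
    exact h2
  have hrat : ∀ i (T : EndH g), matE (2 * g) (P i) = T.baseChange ℂ → P i = mat T := by
    intro i T h
    rw [← matE_mat] at h
    exact (matE (2 * g)).injective h
  refine Pool.Agent.R917.GL.exists_CMS_of (P := fun i => matE (2 * g) (P i)) hcx (fun i => ?_) ?_ (fun i => ?_)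
    (fun i => ?_) ?_
  · rw [← map_mul, hP.projector]
  · rw [← map_sum, hP.sum, map_one]
  · rw [Pool.Agent.R917.GL.trace_matE, hP.plane]
  · rcases hP.type i with ⟨T, hT⟩ | ⟨h1, h2⟩
    · exact Or.inl ⟨T, by rw [hT, matE_mat]⟩
    · refine Or.inr ⟨fun X hX => ?_, fun T hT => ?_⟩
      · have hc : toC X * P i = P i * toC X := by
          have h3 := Pool.Agent.R917.GL.CC_of_cx (bc_mem hX) _ (hcx i)
          rw [← matE_toC, ← map_mul, ← map_mul] at h3
          exact (matE (2 * g)).injective h3
        rw [← matE_toC, ← map_mul, Pool.Agent.R917.GL.trace_matE]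
        refine Pool.Agent.R917.GL.trace_sym ?_ hX hc
        rw [← riemannMatrix_eq]
        exact h1
      · obtain ⟨z, hz⟩ := h2 T (A.mem_EA.1 hT)
        refine ⟨z, ?_⟩
        rw [← matE_mat, ← map_mul, ← map_mul, hz, map_smul]
  · intro i j E E' hij hi hj
    rcases hP.isogeny i j E E' hij (hrat i E hi) (hrat j E' hj) with ⟨T, hT, hT0⟩ | h
    · exact Or.inl ⟨T, A.mem_EA.2 hT, hT0⟩
    · exact Or.inr fun T hT => h T hT

end Planes

/-- The abelian varieties whose homology is a sum of planes (products of elliptic curves and of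
abelian varieties with real or quaternion multiplication) are determined. -/
theorem determined_of_planes (h : Planes.IsSumOfPlanes A) : Determined A := by
  obtain ⟨C, hC, ⟨S⟩⟩ := Planes.exists_classes A h
  exact determined_of_det A (det_of_CMS S)

end Pool.Agent.Results.MP_470b79_ag.KugaSatakeTorsors
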